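import Pool.Agent.ANO3.Conn.Total

/-!
# ANO3, module Tot: homotopy invariance of the total degree
-/

set_option autoImplicit false

open Set Filter Topology

namespace Pool.Agent.ANO3.Tot

open Pool.Agent.ANO Pool.Agent.ANO2 Pool.Agent.ANO3.Conn

variable {r k : ℕ} {E₁ E₂ : Type} [NormedAddCommGroup E₁] [NormedSpace ℝ E₁]
  [NormedAddCommGroup E₂] [NormedSpace ℝ E₂] [FiniteDimensional ℝ E₁] [FiniteDimensional ℝ E₂]
  [Nontrivial (E₁ × E₂)]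

theorem degX_eq_of_total {C₀ : E r k ≃L[ℝ] E₁ × E₂} {Φ : X r k → E₁ × E₂} {d : ℕ}
    (h : Total C₀ Φ d) (hΦ : Continuous Φ) {K : Set (X r k)} (hK : IsCompact K)
    (h0 : {x | Φ x = 0} ⊆ interior K) : (degX C₀ Φ K).natAbs = d := by
  obtain ⟨K', hK', h1, h2⟩ := h
  rw [← h2, degX_excision C₀ hΦ hK hK' (fun x hx _ => ⟨h0 hx, h1 hx⟩)
    (fun x hx _ => ⟨h0 hx, h1 hx⟩)]

theorem total_zero (C₀ : E r k ≃L[ℝ] E₁ × E₂) {Φ : X r k → E₁ × E₂} (hΦ : Continuous Φ)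
    (h0 : ∀ x, Φ x ≠ 0) : Total C₀ Φ 0 := by
  refine ⟨∅, isCompact_empty, fun x hx => absurd hx (h0 x), ?_⟩
  rw [degX_zero C₀ hΦ isCompact_empty fun x hx => absurd hx (notMem_empty x)]
  rfl

theorem Total.exists_zero {C₀ : E r k ≃L[ℝ] E₁ × E₂} {Φ : X r k → E₁ × E₂} {d : ℕ}
    (h : Total C₀ Φ d) (hd : d ≠ 0) (hΦ : Continuous Φ) : ∃ x, Φ x = 0 := by
  by_contra hne
  push Not at hne
  obtain ⟨K, hK, -, h2⟩ := h
  rw [degX_zero C₀ hΦ hK fun x _ => hne x] at h2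
  exact hd h2.symm

/-- Homotopy invariance of the total degree. -/
theorem total_of_homotopy (C₀ : E r k ≃L[ℝ] E₁ × E₂) {Φ : ℝ → X r k → E₁ × E₂}
    (hΦ : Continuous fun p : ℝ × X r k => Φ p.1 p.2)
    (hZ : IsCompact {p : ℝ × X r k | p.1 ∈ Icc (0 : ℝ) 1 ∧ Φ p.1 p.2 = 0}) {d : ℕ}
    (h : Total C₀ (Φ 0) d) : Total C₀ (Φ 1) d := by
  have hc : ∀ t, Continuous (Φ t) := fun t =>
    hΦ.comp (continuous_const.prodMk continuous_id)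
  obtain ⟨K, hK, h1⟩ := exists_compact_superset (hZ.image continuous_snd)
  have h2 : ∀ t ∈ Icc (0 : ℝ) 1, {x | Φ t x = 0} ⊆ interior K := fun t ht x hx =>
    h1 ⟨(t, x), ⟨ht, hx⟩, rfl⟩
  refine ⟨K, hK, h2 1 ⟨zero_le_one, le_refl _⟩, ?_⟩
  rw [← degX_homotopy C₀ hΦ.continuousOn hK]
  · exact degX_eq_of_total h (hc 0) hK (h2 0 ⟨le_refl _, zero_le_one⟩)
  · intro t ht x hx h3
    exact hx.2 (h2 t ht h3)

end Pool.Agent.ANO3.Tot
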