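import Pool.Agent.ANO3.Tot.Pair
import Pool.Agent.ANO3.Surf.Sep

/-!
# ANO3, module Tot: void factors (sections 5 and 6 of the blueprint)

For every type `w` and every `z` there is a point of `NN F T w w` with the coordinates `z i` in the
factors where `w i` is not regular. If `NN F T w w` is countable for all types then all `U i` are
not empty.
-/

set_option autoImplicit false

open scoped UpperHalfPlane
open Set Filter Topology

namespace Pool.Agent.ANO3.Tot

open Pool.Agent.ANO Pool.Agent.ANO2 Pool.Agent.ANO3.Conn Pool.Agent.ANO3.Tree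

variable {r : ℕ} {S : Fin r → SurfaceMap} {F : ∀ i, Flat (S i)} {T₀ T : X r 0 ≃ₜ X r 0}

theorem exists_coord (r : ℕ) : Nonempty (E r 0 ≃L[ℝ] A r × A r) := by
  refine ⟨ContinuousLinearEquiv.ofFinrankEq ?_⟩
  rw [Module.finrank_prod, Module.finrank_prod, Module.finrank_pi_fintype, Module.finrank_fin_fun,
    Module.finrank_fin_fun]
  simp
  ring

theorem exists_mix_zero {E₁ E₂ : Type} [NormedAddCommGroup E₁] [NormedSpace ℝ E₁]
    [NormedAddCommGroup E₂] [NormedSpace ℝ E₂] [FiniteDimensional ℝ E₁] [FiniteDimensional ℝ E₂]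
    [Nontrivial (E₁ × E₂)] (h : Setting S T₀ T) (C₀ : E r 0 ≃L[ℝ] E₁ × E₂)
    (Θ : (A r × A r) ≃L[ℝ] E₁ × E₂) {w z : Fin r → ℍ} (hz : ∀ i, (F i).Reg (w i) → z i = w i) :
    ∃ x, mixU F T₀ T w z 1 x = 0 ∧ mixS F T₀ T w z 1 x = 0 := by
  have h1 := total_mix (F := F) (T₀ := T₀) (T := T) h C₀ Θ
    (w' := w) (w'' := w) (z := z) (fun i => Iff.rfl) (fun i hi => by
      rw [hz i hi]
      exact ⟨(F i).isTree_u.self _, (F i).isTree_s.self _⟩)
  have hone : Continuous fun x : X r 0 => ((1 : ℝ), x) := by fun_prop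
  have hcU := (continuous_mixU (F := F) h w z).comp hone
  have hcS := (continuous_mixS (F := F) h w z).comp hone
  obtain ⟨x, hx⟩ := Total.exists_zero h1 one_ne_zero (Θ.continuous.comp (hcU.prodMk hcS))
  rw [Θ.map_eq_zero_iff, Prod.mk_eq_zero] at hx
  exact ⟨x, hx⟩

theorem nontrivial_A (hr : 0 < r) : Nontrivial (A r × A r) := by
  refine ⟨⟨(fun _ => 1, 0), 0, fun h => ?_⟩⟩
  have h1 := congrFun (congrArg Prod.fst h) (⟨0, hr⟩ : Fin r)
  exact one_ne_zero h1

theorem exists_point (hr : 0 < r) (h : Setting S T₀ T) (w z : Fin r → ℍ) :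
    ∃ x : X r 0, ∀ i, ((F i).Reg (w i) → DU F T i (Sum.inl (w i)) (Sum.inr x) = 0 ∧
      DS F T i (Sum.inl (w i)) (Sum.inr x) = 0) ∧ (¬ (F i).Reg (w i) → x.1 i = z i) := by
  classical
  have hn := nontrivial_A hr
  obtain ⟨C₀⟩ := exists_coord r
  obtain ⟨z', hz', hz''⟩ : ∃ z' : Fin r → ℍ, (∀ i, (F i).Reg (w i) → z' i = w i) ∧
      ∀ i, ¬ (F i).Reg (w i) → z' i = z i := by
    refine ⟨fun i => if (F i).Reg (w i) then w i else z i, fun i hi => ?_, fun i hi => ?_⟩
    · simp only [if_pos hi]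
    · simp only [if_neg hi]
  obtain ⟨x, hx1, hx2⟩ := exists_mix_zero h C₀ (ContinuousLinearEquiv.refl ℝ (A r × A r)) hz'
  refine ⟨x, fun i => ⟨fun hi => ?_, fun hi => ?_⟩⟩
  · have h2 := congrFun hx1 i
    have h3 := congrFun hx2 i
    simp only [mixU, if_pos hi, cl_one, suI_one, Pi.zero_apply] at h2
    simp only [mixS, if_pos hi, cl_one, ssI_one, Pi.zero_apply] at h3
    rw [← abs_su h hi, ← abs_ss h hi, h2, h3, abs_zero]
    exact ⟨rfl, rfl⟩
  · have h2 := congrFun hx1 i
    have h3 := congrFun hx2 i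
    simp only [mixU, if_neg hi, Pi.zero_apply] at h2
    simp only [mixS, if_neg hi, Pi.zero_apply] at h3
    rw [← hz'' i hi]
    exact UpperHalfPlane.ext (Complex.ext (sub_eq_zero.1 h2) (sub_eq_zero.1 h3))

/-- the pseudo-distances of a void factor vanish -/
theorem zero_of_void (h : Setting S T₀ T) {i : Fin r} (hi : (F i).U = ∅)
    (a : ℍ) (x : X r 0) : DU F T i (Sum.inl a) (Sum.inr x) = 0 ∧
      DS F T i (Sum.inl a) (Sum.inr x) = 0 := by
  constructor
  · refine le_antisymm (le_of_forall_pos_le_add fun ε hε => ?_)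
      ((isTree_DU (F := F) h i).nonneg _ _)
    obtain ⟨y, hy⟩ := DU_near (F := F) h i (Sum.inr x) hε
    have h1 := (isTree_DU (F := F) h i).triangle (Sum.inl a) (Sum.inl y) (Sum.inr x)
    rw [DU_inl, ((F i).zero_of_empty hi a y).1] at h1
    linarith
  · refine le_antisymm (le_of_forall_pos_le_add fun ε hε => ?_)
      ((isTree_DS (F := F) h i).nonneg _ _)
    obtain ⟨y, hy⟩ := DS_near (F := F) h i (Sum.inr x) hε
    have h1 := (isTree_DS (F := F) h i).triangle (Sum.inl a) (Sum.inl y) (Sum.inr x)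
    rw [DS_inl, ((F i).zero_of_empty hi a y).2] at h1
    linarith

theorem not_countable_uhp : ¬ (univ : Set ℍ).Countable := by
  intro h
  have h1 : ((fun z : ℍ => z.re) '' univ).Countable := h.image _
  have h2 : ((fun z : ℍ => z.re) '' univ) = (univ : Set ℝ) := by
    refine eq_univ_of_forall fun t => ?_
    exact ⟨⟨⟨t, 1⟩, one_pos⟩, mem_univ _, rfl⟩
  rw [h2] at h1
  exact Cardinal.not_countable_real h1

/-- Section 6: there are no void factors. -/
theorem nonempty_U (hr : 0 < r) (h : Setting S T₀ T)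
    (hc : ∀ w : Fin r → ℍ, IsType F w → (NN F T w w).Countable) (i : Fin r) :
    ((F i).U).Nonempty := by
  by_contra hi
  rw [not_nonempty_iff_eq_empty] at hi
  have hw : ∀ j, ∃ w, ((F j).U.Nonempty → (F j).Reg w) := fun j => by
    by_cases hj : (F j).U.Nonempty
    · obtain ⟨w, hw⟩ := Flat.exists_reg (F := F j) hj
      exact ⟨w, fun _ => hw⟩
    · exact ⟨UpperHalfPlane.I, fun h => absurd h hj⟩
  choose w hw using hw
  have ht : IsType F w := fun j => by
    by_cases hj : (F j).U.Nonempty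
    · exact Or.inl (hw j hj)
    · right
      rw [not_nonempty_iff_eq_empty] at hj
      rw [hj]
      exact notMem_empty _
  have hni : ∀ j, (F j).U = ∅ → ¬ (F j).Reg (w j) := fun j hj hR => by
    have := hR.1
    rw [hj] at this
    exact this
  refine not_countable_uhp (((hc w ht).image fun x => x.1 i).mono fun z _ => ?_)
  obtain ⟨x, hx⟩ := exists_point (F := F) hr h w (fun _ => z)
  refine ⟨x, fun j => ?_, (hx i).2 (hni i hi)⟩
  by_cases hj : (F j).U.Nonempty
  · exact (hx j).1 (hw j hj)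
  · rw [not_nonempty_iff_eq_empty] at hj
    exact zero_of_void h hj _ _

end Pool.Agent.ANO3.Tot
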