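import Pool.Agent.ANO3.Conn.Total

/-!
# ANO3, module Tot: product maps with one regular zero

`LocReg f g z`: near `z` the functions `f`, `g` are `σ (D - D z).re`, `τ (D - D z).im` in a `C¹`
chart `D`. `model_reg`: a product of such functions is a local diffeomorphism at `(z_i)`.
-/

set_option autoImplicit false

open scoped UpperHalfPlane
open Set Filter Topology

namespace Pool.Agent.ANO3.Tot

open Pool.Agent.ANO Pool.Agent.ANO2 Pool.Agent.ANO3.Conn

/-- `(f, g)` is a local diffeomorphism at its zero `z`: up to the factors `σ`, `τ` it is the pair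
of the coordinates of a chart. -/
def LocReg (f g : ℍ → ℝ) (z : ℍ) : Prop :=
  ∃ D : OpenPartialHomeomorph ℂ ℂ, (z : ℂ) ∈ D.source ∧ ContDiffOn ℝ 1 D D.source ∧
    ContDiffOn ℝ 1 D.symm D.target ∧ ∃ σ τ : ℝ, σ ≠ 0 ∧ τ ≠ 0 ∧
      ∀ z' : ℍ, (z' : ℂ) ∈ D.source →
        f z' = σ * (D z' - D z).re ∧ g z' = τ * (D z' - D z).im

theorem LocReg.zero {f g : ℍ → ℝ} {z : ℍ} (h : LocReg f g z) : f z = 0 ∧ g z = 0 := by
  obtain ⟨D, hz, -, -, σ, τ, -, -, h1⟩ := h
  have h2 := h1 z hz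
  rw [sub_self, Complex.zero_re, Complex.zero_im, mul_zero, mul_zero] at h2
  exact h2

/-- The coordinates of `ℂ`. -/
theorem locReg_id (z : ℍ) : LocReg (fun x => x.re - z.re) (fun x => x.im - z.im) z := by
  refine ⟨OpenPartialHomeomorph.refl ℂ, mem_univ _, contDiffOn_id, contDiffOn_id, 1, 1,
    one_ne_zero, one_ne_zero, fun z' _ => ?_⟩
  simp

theorem chart_deriv {D : OpenPartialHomeomorph ℂ ℂ} {z : ℂ} (hz : z ∈ D.source)
    (h1 : ContDiffOn ℝ 1 D D.source) (h2 : ContDiffOn ℝ 1 D.symm D.target) :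
    ∃ D' : ℂ →L[ℝ] ℂ, HasFDerivAt D D' z ∧ ∀ v, D' v = 0 → v = 0 := by
  have h3 : DifferentiableAt ℝ D z :=
    (h1.contDiffAt (D.open_source.mem_nhds hz)).differentiableAt one_ne_zero
  have h4 : DifferentiableAt ℝ D.symm (D z) :=
    (h2.contDiffAt (D.open_target.mem_nhds (D.map_source hz))).differentiableAt one_ne_zero
  refine ⟨fderiv ℝ D z, h3.hasFDerivAt, fun v hv => ?_⟩
  have h5 : HasFDerivAt (D.symm ∘ D) (fderiv ℝ D.symm (D z) ∘L fderiv ℝ D z) z :=
    h4.hasFDerivAt.comp z h3.hasFDerivAt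
  have h6 : HasFDerivAt (D.symm ∘ D) (ContinuousLinearMap.id ℝ ℂ) z := by
    refine (hasFDerivAt_id z).congr_of_eventuallyEq ?_
    filter_upwards [D.open_source.mem_nhds hz] with x hx
    exact D.left_inv hx
  have h7 := h5.unique h6
  have h8 := congrArg (fun L : ℂ →L[ℝ] ℂ => L v) h7
  simp only [ContinuousLinearMap.comp_apply, hv, map_zero, ContinuousLinearMap.id_apply] at h8
  exact h8.symm

variable {r : ℕ} {E₁ E₂ : Type} [NormedAddCommGroup E₁] [NormedSpace ℝ E₁]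
  [NormedAddCommGroup E₂] [NormedSpace ℝ E₂] [FiniteDimensional ℝ E₁] [FiniteDimensional ℝ E₂]

theorem model_reg (C₀ : E r 0 ≃L[ℝ] E₁ × E₂) (Θ : (A r × A r) ≃L[ℝ] E₁ × E₂)
    {f g : Fin r → ℍ → ℝ} {z : Fin r → ℍ} (h : ∀ i, LocReg (f i) (g i) (z i)) :
    ∃ V ∈ 𝓝 (C₀ (toE ((z, 0) : X r 0))),
      ContDiffOn ℝ 1 (hat C₀ fun x => Θ (fun i => f i (x.1 i), fun i => g i (x.1 i))) V ∧
      (fderiv ℝ (hat C₀ fun x => Θ (fun i => f i (x.1 i), fun i => g i (x.1 i)))
        (C₀ (toE ((z, 0) : X r 0)))).det ≠ 0 := by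
  choose D hz h1 h2 σ τ hσ hτ h3 using h
  set Φ : E₁ × E₂ → E₁ × E₂ :=
    hat C₀ fun x => Θ (fun i => f i (x.1 i), fun i => g i (x.1 i)) with hΦ
  set P : E r 0 → A r × A r := fun e =>
    (fun i => σ i * (D i (e.1 i) - D i (z i)).re, fun i => τ i * (D i (e.1 i) - D i (z i)).im)
    with hP
  set W : Set (E r 0) := {e | ∀ i, e.1 i ∈ (D i).source ∧ 0 < (e.1 i).im} with hW
  have hWo : IsOpen W := by
    have e : W = ⋂ i, {e : E r 0 | e.1 i ∈ (D i).source ∧ 0 < (e.1 i).im} := by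
      ext e
      simp [hW]
    rw [e]
    refine isOpen_iInter_of_finite fun i => ?_
    have hc : Continuous fun e : E r 0 => e.1 i := (continuous_apply i).comp continuous_fst
    exact ((D i).open_source.preimage hc).inter
      (isOpen_lt continuous_const (Complex.continuous_im.comp hc))
  have hzW : toE ((z, 0) : X r 0) ∈ W := fun i => ⟨hz i, (z i).im_pos⟩
  have hVo : IsOpen (C₀.symm ⁻¹' W) := hWo.preimage C₀.symm.continuous
  have hzV : C₀ (toE ((z, 0) : X r 0)) ∈ C₀.symm ⁻¹' W := by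
    rw [mem_preimage, ContinuousLinearEquiv.symm_apply_apply]
    exact hzW
  have hEq : ∀ y ∈ C₀.symm ⁻¹' W, Φ y = Θ (P (C₀.symm y)) := by
    intro y hy
    have h4 : ∀ i, ((UpperHalfPlane.ofComplex ((C₀.symm y).1 i) : ℍ) : ℂ) = (C₀.symm y).1 i :=
      fun i => UpperHalfPlane.ofComplex_apply_of_im_pos (hy i).2 ▸ rfl
    rw [hΦ, hat]
    congr 1
    refine Prod.ext (funext fun i => ?_) (funext fun i => ?_)
    · have h5 := (h3 i (UpperHalfPlane.ofComplex ((C₀.symm y).1 i))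
        (by rw [h4]; exact (hy i).1)).1
      rw [h4] at h5
      exact h5
    · have h5 := (h3 i (UpperHalfPlane.ofComplex ((C₀.symm y).1 i))
        (by rw [h4]; exact (hy i).1)).2
      rw [h4] at h5
      exact h5
  have hPs : ContDiffOn ℝ 1 P W := by
    have h4 : ∀ i, ContDiffOn ℝ 1 (fun e : E r 0 => D i (e.1 i) - D i (z i)) W := fun i => by
      refine ContDiffOn.sub ?_ contDiffOn_const
      refine (h1 i).comp (s := W) (f := fun e : E r 0 => e.1 i) ?_ fun e he => (he i).1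
      fun_prop
    refine ContDiffOn.prodMk ?_ ?_
    · refine contDiffOn_pi.2 fun i => ContDiffOn.mul contDiffOn_const ?_
      exact Complex.reCLM.contDiff.comp_contDiffOn (h4 i)
    · refine contDiffOn_pi.2 fun i => ContDiffOn.mul contDiffOn_const ?_
      exact Complex.imCLM.contDiff.comp_contDiffOn (h4 i)
  refine ⟨C₀.symm ⁻¹' W, hVo.mem_nhds hzV, ?_, ?_⟩
  · refine ContDiffOn.congr (f := fun y => Θ (P (C₀.symm y))) ?_ hEq
    exact Θ.contDiff.comp_contDiffOn (hPs.comp C₀.symm.contDiff.contDiffOn fun y hy => hy)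
  · choose D' hD' hinj using fun i => chart_deriv (hz i) (h1 i) (h2 i)
    set e₀ : E r 0 := toE ((z, 0) : X r 0) with he₀
    have hP' : ∃ P' : E r 0 →L[ℝ] A r × A r, HasFDerivAt P P' e₀ ∧ ∀ v, P' v = 0 → v = 0 := by
      have h5 : ∀ i, HasFDerivAt (fun e : E r 0 => D i (e.1 i) - D i (z i))
          (D' i ∘L (ContinuousLinearMap.proj i ∘L ContinuousLinearMap.fst ℝ (Fin r → ℂ)
            (Fin 0 → ℝ))) e₀ := fun i => by
        refine HasFDerivAt.sub_const _ ?_
        exact (hD' i).comp e₀ (ContinuousLinearMap.proj i ∘L ContinuousLinearMap.fst ℝ (Fin r → ℂ)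
            (Fin 0 → ℝ)).hasFDerivAt
      have h6 : ∀ i, HasFDerivAt (fun e : E r 0 => σ i * (D i (e.1 i) - D i (z i)).re)
          (σ i • (Complex.reCLM ∘L (D' i ∘L (ContinuousLinearMap.proj i ∘L
            ContinuousLinearMap.fst ℝ (Fin r → ℂ) (Fin 0 → ℝ))))) e₀ := fun i =>
        (Complex.reCLM.hasFDerivAt.comp e₀ (h5 i)).const_mul (σ i)
      have h7 : ∀ i, HasFDerivAt (fun e : E r 0 => τ i * (D i (e.1 i) - D i (z i)).im)
          (τ i • (Complex.imCLM ∘L (D' i ∘L (ContinuousLinearMap.proj i ∘L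
            ContinuousLinearMap.fst ℝ (Fin r → ℂ) (Fin 0 → ℝ))))) e₀ := fun i =>
        (Complex.imCLM.hasFDerivAt.comp e₀ (h5 i)).const_mul (τ i)
      refine ⟨_, (hasFDerivAt_pi.2 h6).prodMk (hasFDerivAt_pi.2 h7), fun v hv => ?_⟩
      refine Prod.ext (funext fun i => ?_) (Subsingleton.elim _ _)
      have h8 := congrFun (congrArg Prod.fst hv) i
      have h9 := congrFun (congrArg Prod.snd hv) i
      refine hinj i (v.1 i) (Complex.ext ?_ ?_)
      · exact (mul_eq_zero.1 h8).resolve_left (hσ i)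
      · exact (mul_eq_zero.1 h9).resolve_left (hτ i)
    obtain ⟨P', hP', hi⟩ := hP'
    have h5 : HasFDerivAt Φ ((Θ : (A r × A r) →L[ℝ] E₁ × E₂) ∘L (P' ∘L
        (C₀.symm : (E₁ × E₂) →L[ℝ] E r 0))) (C₀ e₀) := by
      have h6 : HasFDerivAt P P' (C₀.symm (C₀ e₀)) := by
        rw [ContinuousLinearEquiv.symm_apply_apply]
        exact hP'
      have h7 := (Θ.hasFDerivAt (x := P (C₀.symm (C₀ e₀)))).comp (C₀ e₀)
        (h6.comp (C₀ e₀) C₀.symm.hasFDerivAt)
      refine h7.congr_of_eventuallyEq ?_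
      filter_upwards [hVo.mem_nhds hzV] with y hy
      exact hEq y hy
    rw [h5.fderiv]
    refine Pool.Agent.SmoothDegree.det_ne_zero_of_inj _ fun v hv => ?_
    have h6 : Θ (P' (C₀.symm v)) = 0 := hv
    have h7 := hi _ (Θ.map_eq_zero_iff.1 h6)
    exact C₀.symm.map_eq_zero_iff.1 h7

/-- A product of planar maps with one zero each: the total degree is `1` (up to sign). -/
theorem total_one [Nontrivial (E₁ × E₂)] (C₀ : E r 0 ≃L[ℝ] E₁ × E₂)
    (Θ : (A r × A r) ≃L[ℝ] E₁ × E₂)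
    {f g : Fin r → ℍ → ℝ} (hf : ∀ i, Continuous (f i)) (hg : ∀ i, Continuous (g i))
    {z : Fin r → ℍ} (h : ∀ i, LocReg (f i) (g i) (z i))
    (hu : ∀ i z', f i z' = 0 → g i z' = 0 → z' = z i) :
    Total C₀ (fun x => Θ (fun i => f i (x.1 i), fun i => g i (x.1 i))) 1 := by
  obtain ⟨V, hV, h1, h2⟩ := model_reg C₀ Θ h
  have h0 : ∀ x : X r 0, Θ (fun i => f i (x.1 i), fun i => g i (x.1 i)) = 0 → x = (z, 0) := by
    intro x hx
    have h3 := Θ.map_eq_zero_iff.1 hx
    refine Prod.ext (funext fun i => hu i _ ?_ ?_) (Subsingleton.elim _ _)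
    · exact congrFun (congrArg Prod.fst h3) i
    · exact congrFun (congrArg Prod.snd h3) i
  have hw : (fun x : X r 0 => Θ (fun i => f i (x.1 i), fun i => g i (x.1 i))) (z, 0) = 0 := by
    show Θ (fun i => f i (z i), fun i => g i (z i)) = 0
    rw [Θ.map_eq_zero_iff]
    refine Prod.ext (funext fun i => (h i).zero.1) (funext fun i => (h i).zero.2)
  obtain ⟨K, hK, h3⟩ := exists_compact_superset (isCompact_singleton (x := ((z, 0) : X r 0)))
  have h4 : ((z, 0) : X r 0) ∈ interior K := h3 rfl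
  have hc : Continuous fun x : X r 0 => Θ (fun i => f i (x.1 i), fun i => g i (x.1 i)) := by
    have hf' : ∀ i, Continuous fun x : X r 0 => f i (x.1 i) := fun i =>
      (hf i).comp ((continuous_apply i).comp continuous_fst)
    have hg' : ∀ i, Continuous fun x : X r 0 => g i (x.1 i) := fun i =>
      (hg i).comp ((continuous_apply i).comp continuous_fst)
    exact Θ.continuous.comp ((continuous_pi hf').prodMk (continuous_pi hg'))
  refine ⟨K, hK, fun x hx => ?_, ?_⟩
  · rw [h0 x hx]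
    exact h4
  · exact degX_one C₀ hc hK h4 hw (fun x _ hx => h0 x hx) hV h1 h2

end Pool.Agent.ANO3.Tot
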