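import Pool.Agent.ANO3.Tot.Hom
import Pool.Agent.ANO3.Tot.Loc

/-!
# ANO3, module Tot: families which start with a product map

`a`, `b : ℝ → X r 0 → ℝ^r` are continuous, `a 0`, `b 0` are products of planar functions, the set
of common zeros over `[0, 1]` is compact. Then the total degree of `(a 1, b 1)` is `±1` if the
planar pairs have exactly one zero each, which is regular, and `0` if one of them has no zero.
-/

set_option autoImplicit false

open scoped UpperHalfPlane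
open Set Filter Topology

namespace Pool.Agent.ANO3.Tot

open Pool.Agent.ANO Pool.Agent.ANO2 Pool.Agent.ANO3.Conn

variable {r : ℕ} {E₁ E₂ : Type} [NormedAddCommGroup E₁] [NormedSpace ℝ E₁]
  [NormedAddCommGroup E₂] [NormedSpace ℝ E₂] [FiniteDimensional ℝ E₁] [FiniteDimensional ℝ E₂]
  [Nontrivial (E₁ × E₂)]

theorem total_family (C₀ : E r 0 ≃L[ℝ] E₁ × E₂) (Θ : (A r × A r) ≃L[ℝ] E₁ × E₂)
    {a b : ℝ → X r 0 → A r} (ha : Continuous fun p : ℝ × X r 0 => a p.1 p.2)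
    (hb : Continuous fun p : ℝ × X r 0 => b p.1 p.2)
    (hZ : IsCompact {p : ℝ × X r 0 | p.1 ∈ Icc (0 : ℝ) 1 ∧ a p.1 p.2 = 0 ∧ b p.1 p.2 = 0})
    {d : ℕ} (h : Total C₀ (fun x => Θ (a 0 x, b 0 x)) d) :
    Total C₀ (fun x => Θ (a 1 x, b 1 x)) d := by
  refine total_of_homotopy C₀ (Φ := fun t x => Θ (a t x, b t x))
    (Θ.continuous.comp (ha.prodMk hb)) ?_ h
  convert hZ using 1
  ext p
  simp only [mem_ofPred_eq, Θ.map_eq_zero_iff, Prod.mk_eq_zero]

/-- The pairs have one regular zero each. -/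
theorem total_family_one (C₀ : E r 0 ≃L[ℝ] E₁ × E₂) (Θ : (A r × A r) ≃L[ℝ] E₁ × E₂)
    {a b : ℝ → X r 0 → A r} (ha : Continuous fun p : ℝ × X r 0 => a p.1 p.2)
    (hb : Continuous fun p : ℝ × X r 0 => b p.1 p.2)
    (hZ : IsCompact {p : ℝ × X r 0 | p.1 ∈ Icc (0 : ℝ) 1 ∧ a p.1 p.2 = 0 ∧ b p.1 p.2 = 0})
    {f g : Fin r → ℍ → ℝ} (hf : ∀ i, Continuous (f i)) (hg : ∀ i, Continuous (g i))
    (ha0 : ∀ x i, a 0 x i = f i (x.1 i)) (hb0 : ∀ x i, b 0 x i = g i (x.1 i))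
    {z : Fin r → ℍ} (hz : ∀ i, LocReg (f i) (g i) (z i))
    (hu : ∀ i z', f i z' = 0 → g i z' = 0 → z' = z i) :
    Total C₀ (fun x => Θ (a 1 x, b 1 x)) 1 := by
  refine total_family C₀ Θ ha hb hZ ?_
  have h := total_one C₀ Θ hf hg hz hu
  have e : (fun x : X r 0 => Θ (a 0 x, b 0 x)) =
      fun x => Θ (fun i => f i (x.1 i), fun i => g i (x.1 i)) := by
    funext x
    rw [show a 0 x = fun i => f i (x.1 i) from funext (ha0 x),
      show b 0 x = fun i => g i (x.1 i) from funext (hb0 x)]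
  rw [e]
  exact h

/-- One of the pairs has no zero. -/
theorem total_family_zero (C₀ : E r 0 ≃L[ℝ] E₁ × E₂) (Θ : (A r × A r) ≃L[ℝ] E₁ × E₂)
    {a b : ℝ → X r 0 → A r} (ha : Continuous fun p : ℝ × X r 0 => a p.1 p.2)
    (hb : Continuous fun p : ℝ × X r 0 => b p.1 p.2)
    (hZ : IsCompact {p : ℝ × X r 0 | p.1 ∈ Icc (0 : ℝ) 1 ∧ a p.1 p.2 = 0 ∧ b p.1 p.2 = 0})
    (h0 : ∀ x, ¬ (a 0 x = 0 ∧ b 0 x = 0)) :
    Total C₀ (fun x => Θ (a 1 x, b 1 x)) 0 := by
  refine total_family C₀ Θ ha hb hZ (total_zero C₀ ?_ fun x hx => h0 x ?_)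
  · have h1 : Continuous fun x : X r 0 => (a 0 x, b 0 x) :=
      (ha.comp (continuous_const.prodMk continuous_id)).prodMk
        (hb.comp (continuous_const.prodMk continuous_id))
    exact Θ.continuous.comp h1
  · rw [Θ.map_eq_zero_iff, Prod.mk_eq_zero] at hx
    exact hx

end Pool.Agent.ANO3.Tot
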