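import Pool.Agent.ANO3.Tot.Void
import Pool.Agent.ANO3.End.Iface

/-!
# ANO3, module Tot: the statements used by `Conn` and `End`
-/

set_option autoImplicit false

open scoped UpperHalfPlane
open Set Filter Topology

namespace Pool.Agent.ANO3.Tot

open Pool.Agent.ANO Pool.Agent.ANO2 Pool.Agent.ANO3.Conn Pool.Agent.ANO3.Tree

variable {r : ℕ} {S : Fin r → SurfaceMap} {F : ∀ i, Flat (S i)} {T₀ T : X r 0 ≃ₜ X r 0}

theorem nontrivial_E (hr : 0 < r) : Nontrivial (E r 0) := by
  refine ⟨⟨(fun _ => 1, 0), 0, fun h => ?_⟩⟩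
  have h1 := congrFun (congrArg Prod.fst h) (⟨0, hr⟩ : Fin r)
  exact one_ne_zero h1

theorem totSelf (hr : 0 < r) (h : Setting S T₀ T) : TotSelf F T := by
  intro u s C₀ Θ w hw
  have h0 := nontrivial_E hr
  have h1 : Nontrivial ((Fin u → ℝ) × (Fin s → ℝ)) := C₀.injective.nontrivial
  exact total_self h C₀ Θ hw

theorem totZero (hr : 0 < r) (h : Setting S T₀ T) : TotZero F T := by
  intro u s C₀ Θ w' w'' hw' hw'' hz
  have h0 := nontrivial_E hr
  have h1 : Nontrivial ((Fin u → ℝ) × (Fin s → ℝ)) := C₀.injective.nontrivial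
  obtain ⟨i, hz⟩ := hz
  exact total_pair_zero h C₀ Θ hw' hw'' hz

/-- Section 6: there are no void factors. -/
theorem nonempty_U_of_countable (hr : 0 < r) (h : Setting S T₀ T) (hc : CountableNN F T)
    (i : Fin r) : ((F i).U).Nonempty :=
  nonempty_U hr h hc i

end Pool.Agent.ANO3.Tot
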