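import Pool.Agent.ANO3.Tot.Loc
import Pool.Agent.ANO3.Surf.Lift

/-!
# ANO3, module Tot: the planar model maps

`s` is a signed distance from the regular point `w` (`SFun`). If `du w z = 0`, `z ∈ U`, then in a
chart at `z` the function `s` is `±` (the first coordinate minus its value at `z`): points `a`, `b`
on the two sides of `z` are in different arms at `w`, because
`du a b = du z a + du z b = du w a + du w b`. So the pair of the two signed distances is `LocReg` at
a common zero. There is at most one common zero (`emb`).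
-/

set_option autoImplicit false

open scoped UpperHalfPlane
open Set Filter Topology

namespace Pool.Agent.ANO3.Tot

open Pool.Agent.ANO Pool.Agent.ANO2 Pool.Agent.ANO3.Conn

/-- `s` is a signed distance from `w`. -/
structure SFun {P : Type} (d : P → P → ℝ) (w : P) (s : P → ℝ) : Prop where
  abs : ∀ z, |s z| = d w z
  opp : ∀ a b, 0 < d w a → 0 < d w b → ¬ SameArm d w a b → s a * s b < 0

/-- The formula for `s` in a coordinate. -/
theorem SFun.coord {P : Type} {d : P → P → ℝ} {w : P} {s : P → ℝ} (h : SFun d w s)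
    (hsymm : ∀ a b, d a b = d b a) (htri : ∀ a b c, d a c ≤ d a b + d b c)
    {V : Set P} {x : P → ℝ} (hx : ∀ a ∈ V, ∀ b ∈ V, d a b = |x a - x b|) {z zm zp : P}
    (hz : z ∈ V) (hm : zm ∈ V) (hp : zp ∈ V) (hzm : x zm < x z) (hzp : x z < x zp)
    (hw : d w z = 0) : ∃ σ : ℝ, (σ = 1 ∨ σ = -1) ∧ ∀ a ∈ V, s a = σ * (x a - x z) := by
  have hdw : ∀ a, d w a = d z a := by
    intro a
    have h1 := htri w z a
    have h2 := htri z w a
    have h3 := hsymm z w
    linarith
  have hda : ∀ a ∈ V, d w a = |x a - x z| := fun a ha => by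
    rw [hdw, hx z hz a ha, abs_sub_comm]
  have hopp : ∀ a ∈ V, ∀ b ∈ V, x a < x z → x z < x b → s a * s b < 0 := by
    intro a ha b hb h1 h2
    have h3 := hda a ha
    have h4 := hda b hb
    rw [abs_of_neg (by linarith)] at h3
    rw [abs_of_pos (by linarith)] at h4
    refine h.opp a b (by linarith) (by linarith) fun h5 => ?_
    have h6 : d a b < d w a + d w b := h5
    rw [hx a ha b hb, abs_of_neg (by linarith), h3, h4] at h6
    linarith
  have h0 : ∀ a ∈ V, |s a| = |x a - x z| := fun a ha => by rw [h.abs, hda a ha]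
  have key : ∀ σ : ℝ, (σ = 1 ∨ σ = -1) → 0 < σ * s zp → ∀ a ∈ V, s a = σ * (x a - x z) := by
    intro σ hσ hσp a ha
    have hσσ : σ * σ = 1 := by rcases hσ with h | h <;> rw [h] <;> norm_num
    have hzms : σ * s zm < 0 := by
      have h1 := hopp zm hm zp hp hzm hzp
      have h2 : (σ * s zm) * (σ * s zp) < 0 := by
        calc (σ * s zm) * (σ * s zp) = (σ * σ) * (s zm * s zp) := by ring
          _ = s zm * s zp := by rw [hσσ, one_mul]
          _ < 0 := h1
      by_contra h3
      push Not at h3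
      exact absurd (mul_nonneg h3 hσp.le) (not_le.2 h2)
    have hs : |σ * s a| = |x a - x z| := by
      rw [abs_mul, ← h0 a ha]
      rcases hσ with h | h <;> rw [h] <;> simp
    have goal : σ * s a = x a - x z := by
      rcases lt_trichotomy (x a) (x z) with h1 | h1 | h1
      · have h2 := hopp a ha zp hp h1 hzp
        have h3 : (σ * s a) * (σ * s zp) < 0 := by
          calc (σ * s a) * (σ * s zp) = (σ * σ) * (s a * s zp) := by ring
            _ = s a * s zp := by rw [hσσ, one_mul]
            _ < 0 := h2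
        have h4 : σ * s a < 0 := by
          by_contra h5
          push Not at h5
          exact absurd (mul_nonneg h5 hσp.le) (not_le.2 h3)
        rw [abs_of_neg h4, abs_of_neg (by linarith)] at hs
        linarith
      · rw [h1, sub_self, abs_zero, abs_eq_zero] at hs
        rw [hs, h1, sub_self]
      · have h2 := hopp zm hm a ha hzm h1
        have h3 : (σ * s zm) * (σ * s a) < 0 := by
          calc (σ * s zm) * (σ * s a) = (σ * σ) * (s zm * s a) := by ring
            _ = s zm * s a := by rw [hσσ, one_mul]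
            _ < 0 := h2
        have h4 : 0 < σ * s a := by
          by_contra h5
          push Not at h5
          exact absurd (mul_nonneg_of_nonpos_of_nonpos hzms.le h5) (not_le.2 h3)
        rw [abs_of_pos h4, abs_of_pos (by linarith)] at hs
        linarith
    rw [← goal, ← mul_assoc, hσσ, one_mul]
  have hne : s zp ≠ 0 := by
    intro h1
    have h2 := h0 zp hp
    rw [h1, abs_zero, eq_comm, abs_eq_zero] at h2
    linarith
  rcases lt_or_gt_of_ne hne with h1 | h1
  · exact ⟨-1, Or.inr rfl, key (-1) (Or.inr rfl) (by linarith)⟩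
  · exact ⟨1, Or.inl rfl, key 1 (Or.inl rfl) (by linarith)⟩

variable {S : SurfaceMap} (F : Flat S)

/-- in every chart there are points on all sides -/
theorem exists_sides {z : ℍ} {D : OpenPartialHomeomorph ℂ ℂ} (hD : F.IsChart z D) (v : ℂ) :
    ∃ t > (0 : ℝ), ∃ z' : ℍ, (z' : ℂ) ∈ D.source ∧ D z' = D z + t • v := by
  have h1 : Tendsto (fun t : ℝ => D z + t • v) (𝓝[>] 0) (𝓝 (D z)) := by
    have h2 : Continuous fun t : ℝ => D z + t • v := by fun_prop
    have h3 := h2.tendsto 0
    rw [zero_smul, add_zero] at h3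
    exact h3.mono_left nhdsWithin_le_nhds
  have h2 : ∀ᶠ t in 𝓝[>] (0 : ℝ), D z + t • v ∈ D.target :=
    h1 (D.open_target.mem_nhds (D.map_source hD.mem))
  obtain ⟨t, ht, ht0⟩ := (h2.and self_mem_nhdsWithin).exists
  obtain ⟨z', -, hz'⟩ := hD.sub _ (D.map_target ht)
  refine ⟨t, ht0, z', ?_, ?_⟩
  · rw [hz']
    exact D.map_target ht
  · rw [hz', D.right_inv ht]

/-- Two signed distances are the coordinates of a chart at a common zero in `U`. -/
theorem locReg_of_sFun {w' w'' z : ℍ} {f g : ℍ → ℝ} (hf : SFun F.du w' f) (hg : SFun F.ds w'' g)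
    (hz : z ∈ F.U) (h1 : F.du w' z = 0) (h2 : F.ds w'' z = 0) : LocReg f g z := by
  obtain ⟨D, hD⟩ := F.exists_isChart hz
  obtain ⟨t₁, ht₁, p₁, hp₁, hp₁'⟩ := exists_sides F hD 1
  obtain ⟨t₂, ht₂, p₂, hp₂, hp₂'⟩ := exists_sides F hD (-1)
  obtain ⟨t₃, ht₃, p₃, hp₃, hp₃'⟩ := exists_sides F hD Complex.I
  obtain ⟨t₄, ht₄, p₄, hp₄, hp₄'⟩ := exists_sides F hD (-Complex.I)
  obtain ⟨σ, hσ, h3⟩ := hf.coord F.dual_u.symm F.dual_u.triangle
    (V := {z' : ℍ | (z' : ℂ) ∈ D.source}) (x := fun z' : ℍ => (D z').re)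
    (fun a ha b hb => hD.du a b ha hb) (z := z) (zm := p₂) (zp := p₁) hD.mem hp₂ hp₁
    (by show (D p₂).re < (D z).re; rw [hp₂']; simp [ht₂])
    (by show (D z).re < (D p₁).re; rw [hp₁']; simp [ht₁]) h1
  obtain ⟨τ, hτ, h4⟩ := hg.coord F.dual_s.symm F.dual_s.triangle
    (V := {z' : ℍ | (z' : ℂ) ∈ D.source}) (x := fun z' : ℍ => (D z').im)
    (fun a ha b hb => hD.ds a b ha hb) (z := z) (zm := p₄) (zp := p₃) hD.mem hp₄ hp₃
    (by show (D p₄).im < (D z).im; rw [hp₄']; simp [ht₄])
    (by show (D z).im < (D p₃).im; rw [hp₃']; simp [ht₃]) h2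
  refine ⟨D, hD.mem, hD.smooth, hD.smooth_symm, σ, τ, ?_, ?_, fun z' hz' => ⟨?_, ?_⟩⟩
  · rcases hσ with h | h <;> rw [h] <;> norm_num
  · rcases hτ with h | h <;> rw [h] <;> norm_num
  · rw [h3 z' hz', Complex.sub_re]
  · rw [h4 z' hz', Complex.sub_im]

/-- A common zero in `U` is the only one. -/
theorem uniq_of_emb {w' w'' z z' : ℍ} (hz : z ∈ F.U) (h1 : F.du w' z = 0) (h2 : F.ds w'' z = 0)
    (h1' : F.du w' z' = 0) (h2' : F.ds w'' z' = 0) : z' = z := by
  have h3 : F.du z z' = 0 := by
    refine le_antisymm ?_ (F.du_nonneg z z')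
    have h := F.dual_u.triangle z w' z'
    rw [F.dual_u.symm z w'] at h
    linarith
  have h4 : F.ds z z' = 0 := by
    refine le_antisymm ?_ (F.ds_nonneg z z')
    have h := F.dual_s.triangle z w'' z'
    rw [F.dual_s.symm z w''] at h
    linarith
  by_contra hne
  obtain ⟨ε, hε, h5⟩ := F.emb z hz {z'}ᶜ (isOpen_compl_singleton.mem_nhds (Ne.symm hne))
  exact h5 z' (by rw [h3]; exact hε) (by rw [h4]; exact hε) rfl

end Pool.Agent.ANO3.Tot
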