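import Pool.Agent.ANO3.Tot.Family
import Pool.Agent.ANO3.Tot.Model
import Pool.Agent.ANO3.Sys.CptSet

/-!
# ANO3, module Tot: the total degree of a pair (section 5 of the blueprint)
-/

set_option autoImplicit false

open scoped UpperHalfPlane
open Set Filter Topology

namespace Pool.Agent.ANO3.Tot

open Pool.Agent.ANO Pool.Agent.ANO2 Pool.Agent.ANO3.Conn Pool.Agent.ANO3.Tree

section Plane

variable {S : SurfaceMap} {F : Flat S}

theorem isArc_zz {w : ℍ} (hw : F.Reg w) : ∃ t, IsArc F.du w (F.zz w).1 (F.zz w).2 t :=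
  (Flat.Reg.leaf hw).isArc_zz

theorem abs_sg {w : ℍ} (hw : F.Reg w) (z : ℍ) : |F.sg w z| = F.du w z := by
  obtain ⟨t, ht⟩ := isArc_zz hw
  exact abs_sdist F.isTree_u (Flat.twoSided (fun z' hz' => hw.leaf_u hz') ht) (mem_univ z)

theorem abs_sg_rev {w : ℍ} (hw : F.Reg w) (z : ℍ) : |F.rev.sg w z| = F.ds w z :=
  abs_sg (F := F.rev) (Flat.reg_rev.2 hw) z

theorem sg_eq_zero {w : ℍ} (hw : F.Reg w) (z : ℍ) : F.sg w z = 0 ↔ F.du w z = 0 := by
  rw [← abs_sg hw, abs_eq_zero]

theorem sg_rev_eq_zero {w : ℍ} (hw : F.Reg w) (z : ℍ) : F.rev.sg w z = 0 ↔ F.ds w z = 0 := by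
  rw [← abs_sg_rev hw, abs_eq_zero]

/-- The signed distances are the coordinates of a chart at a common zero. -/
theorem locReg_sg {w' w'' z : ℍ} (hw' : F.Reg w') (hw'' : F.Reg w'') (h1 : F.du w' z = 0)
    (h2 : F.ds w'' z = 0) : LocReg (F.sg w') (F.rev.sg w'') z := by
  obtain ⟨D, hD⟩ := F.exists_isChart (hw'.leaf_u h1)
  obtain ⟨D', hD', hs, hc⟩ := hD.swap
  obtain ⟨σ, hσ, h3⟩ := (Flat.Reg.leaf hw').sg_local h1 hD
  obtain ⟨τ, hτ, h4⟩ := (Flat.Reg.leaf (Flat.reg_rev.2 hw'')).sg_local (F := F.rev) h2 hD'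
  refine ⟨D, hD.mem, hD.smooth, hD.smooth_symm, σ, τ, ?_, ?_, fun z' hz' => ⟨?_, ?_⟩⟩
  · rcases hσ with h | h <;> rw [h] <;> norm_num
  · rcases hτ with h | h <;> rw [h] <;> norm_num
  · rw [h3 z' hz', Complex.sub_re]
  · rw [h4 z' (by rw [hs]; exact hz'), (hc z').1, (hc z).1, Complex.sub_im]

end Plane

variable {r : ℕ} {S : Fin r → SurfaceMap} {F : ∀ i, Flat (S i)}

section General

variable {k : ℕ} {T₀ T : X r k ≃ₜ X r k}

theorem abs_suI (h : Setting S T₀ T) {i : Fin r} {w : ℍ} (hw : (F i).Reg w)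
    (y : unitInterval × X r k) :
    |suI F T₀ T i w y| = DUI F T₀ T i (Sum.inl w) (Sum.inr y) :=
  abs_sgn (Flat.Reg.leaf hw) (h.isSys_I i) (Sum.inr y)

theorem abs_ssI (h : Setting S T₀ T) {i : Fin r} {w : ℍ} (hw : (F i).Reg w)
    (y : unitInterval × X r k) :
    |ssI F T₀ T i w y| = DSI F T₀ T i (Sum.inl w) (Sum.inr y) :=
  abs_sgn (Flat.Reg.leaf (Flat.reg_rev.2 hw)) (h.isSys_I' i) (Sum.inr y)

theorem continuous_sg (h : Setting S T₀ T) {i : Fin r} {w : ℍ} (hw : (F i).Reg w) :
    Continuous ((F i).sg w) := by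
  have h1 := (continuous_sgn (Flat.Reg.leaf hw) (h.isSys_X i)).comp continuous_inl
  refine h1.congr fun z => ?_
  exact sgn_inl w z

theorem continuous_sg_rev (h : Setting S T₀ T) {i : Fin r} {w : ℍ} (hw : (F i).Reg w) :
    Continuous ((F i).rev.sg w) := by
  have h1 := (continuous_sgn (Flat.Reg.leaf (Flat.reg_rev.2 hw)) (h.isSys_X' i)).comp
    continuous_inl
  refine h1.congr fun z => ?_
  exact sgn_inl w z

/-- the parameter `t ∈ ℝ`, clamped to `[0, 1]` -/
noncomputable def cl (t : ℝ) : unitInterval := projIcc (0 : ℝ) 1 zero_le_one t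

theorem continuous_cl : Continuous cl := continuous_projIcc (h := zero_le_one)

theorem cl_zero : cl 0 = 0 := projIcc_left zero_le_one

theorem cl_one : cl 1 = 1 := projIcc_right zero_le_one

end General

open Classical in
/-- the first functions: the signed distances for the regular factors, `re` for the other ones -/
noncomputable def mixU (F : ∀ i, Flat (S i)) (T₀ T : X r 0 ≃ₜ X r 0) (w z : Fin r → ℍ) (t : ℝ)
    (x : X r 0) : A r := fun i =>
  if (F i).Reg (w i) then suI F T₀ T i (w i) (cl t, x) else (x.1 i).re - (z i).re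

open Classical in
/-- the second functions: the signed distances for the regular factors, `im` for the other ones -/
noncomputable def mixS (F : ∀ i, Flat (S i)) (T₀ T : X r 0 ≃ₜ X r 0) (w z : Fin r → ℍ) (t : ℝ)
    (x : X r 0) : A r := fun i =>
  if (F i).Reg (w i) then ssI F T₀ T i (w i) (cl t, x) else (x.1 i).im - (z i).im

variable {T₀ T : X r 0 ≃ₜ X r 0}

theorem continuous_mixU (h : Setting S T₀ T) (w z : Fin r → ℍ) :
    Continuous fun p : ℝ × X r 0 => mixU F T₀ T w z p.1 p.2 := by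
  refine continuous_pi fun i => ?_
  by_cases hw : (F i).Reg (w i)
  · have e : (fun p : ℝ × X r 0 => mixU F T₀ T w z p.1 p.2 i) =
        fun p => suI F T₀ T i (w i) (cl p.1, p.2) := by
      funext p
      simp only [mixU, if_pos hw]
    rw [e]
    exact (continuous_suI h hw).comp ((continuous_cl.comp continuous_fst).prodMk continuous_snd)
  · have e : (fun p : ℝ × X r 0 => mixU F T₀ T w z p.1 p.2 i) =
        fun p => (p.2.1 i).re - (z i).re := by
      funext p
      simp only [mixU, if_neg hw]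
    rw [e]
    exact (UpperHalfPlane.continuous_re.comp ((continuous_apply i).comp
      (continuous_fst.comp continuous_snd))).sub continuous_const

theorem continuous_mixS (h : Setting S T₀ T) (w z : Fin r → ℍ) :
    Continuous fun p : ℝ × X r 0 => mixS F T₀ T w z p.1 p.2 := by
  refine continuous_pi fun i => ?_
  by_cases hw : (F i).Reg (w i)
  · have e : (fun p : ℝ × X r 0 => mixS F T₀ T w z p.1 p.2 i) =
        fun p => ssI F T₀ T i (w i) (cl p.1, p.2) := by
      funext p
      simp only [mixS, if_pos hw]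
    rw [e]
    exact (continuous_ssI h hw).comp ((continuous_cl.comp continuous_fst).prodMk continuous_snd)
  · have e : (fun p : ℝ × X r 0 => mixS F T₀ T w z p.1 p.2 i) =
        fun p => (p.2.1 i).im - (z i).im := by
      funext p
      simp only [mixS, if_neg hw]
    rw [e]
    exact (UpperHalfPlane.continuous_im.comp ((continuous_apply i).comp
      (continuous_fst.comp continuous_snd))).sub continuous_const

/-- compactness of the zero set of the family, for two types with the same regular factors -/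
theorem compact_mix (h : Setting S T₀ T) {w' w'' z : Fin r → ℍ}
    (hw : ∀ i, (F i).Reg (w' i) ↔ (F i).Reg (w'' i)) :
    IsCompact {p : ℝ × X r 0 | p.1 ∈ Icc (0 : ℝ) 1 ∧ mixU F T₀ T w' z p.1 p.2 = 0 ∧
      mixS F T₀ T w'' z p.1 p.2 = 0} := by
  have hK : ∀ i, ∃ K : Set ℍ, IsCompact K ∧ ∀ (t : ℝ) (x : X r 0),
      mixU F T₀ T w' z t x i = 0 → mixS F T₀ T w'' z t x i = 0 → x.1 i ∈ K := by
    intro i
    by_cases hi : (F i).Reg (w' i)
    · obtain ⟨ε, hε, K, hK, h1⟩ := bounded_I h i (w'' := w'' i) hi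
      refine ⟨K, hK, fun t x hx hy => h1 (cl t, x) ?_ ?_⟩
      · simp only [mixU, if_pos hi] at hx
        rw [← abs_suI h hi, hx, abs_zero]
        exact hε.le
      · simp only [mixS, if_pos ((hw i).1 hi)] at hy
        rw [← abs_ssI h ((hw i).1 hi), hy, abs_zero]
        exact hε.le
    · refine ⟨{z i}, isCompact_singleton, fun t x hx hy => ?_⟩
      simp only [mixU, if_neg hi] at hx
      simp only [mixS, if_neg fun h => hi ((hw i).2 h)] at hy
      exact UpperHalfPlane.ext (Complex.ext (sub_eq_zero.1 hx) (sub_eq_zero.1 hy))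
  choose K hK h1 using hK
  have h2 : IsCompact (Icc (0 : ℝ) 1 ×ˢ {x : X r 0 | ∀ i, x.1 i ∈ K i}) :=
    isCompact_Icc.prod (isCompact_box hK)
  refine h2.of_isClosed_subset ?_ ?_
  · refine IsClosed.inter (isClosed_Icc.preimage continuous_fst) (IsClosed.inter ?_ ?_)
    · exact isClosed_singleton.preimage (continuous_mixU h w' z)
    · exact isClosed_singleton.preimage (continuous_mixS h w'' z)
  · rintro ⟨t, x⟩ ⟨ht, hx, hy⟩
    exact ⟨ht, fun i => h1 i t x (congrFun hx i) (congrFun hy i)⟩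

variable {E₁ E₂ : Type} [NormedAddCommGroup E₁] [NormedSpace ℝ E₁]
  [NormedAddCommGroup E₂] [NormedSpace ℝ E₂] [FiniteDimensional ℝ E₁] [FiniteDimensional ℝ E₂]
  [Nontrivial (E₁ × E₂)]

/-- The total degree of the mixed family, `w'` and `w''` regular at the same factors, the model
leaves meet at the regular factors. -/
theorem total_mix (h : Setting S T₀ T) (C₀ : E r 0 ≃L[ℝ] E₁ × E₂)
    (Θ : (A r × A r) ≃L[ℝ] E₁ × E₂) {w' w'' z : Fin r → ℍ}
    (hw : ∀ i, (F i).Reg (w' i) ↔ (F i).Reg (w'' i))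
    (hz : ∀ i, (F i).Reg (w' i) → (F i).du (w' i) (z i) = 0 ∧ (F i).ds (w'' i) (z i) = 0) :
    Total C₀ (fun x => Θ (mixU F T₀ T w' z 1 x, mixS F T₀ T w'' z 1 x)) 1 := by
  classical
  refine total_family_one C₀ Θ (continuous_mixU h w' z) (continuous_mixS h w'' z)
    (compact_mix h hw)
    (f := fun i => if (F i).Reg (w' i) then (F i).sg (w' i) else fun x => x.re - (z i).re)
    (g := fun i => if (F i).Reg (w' i) then (F i).rev.sg (w'' i) else fun x => x.im - (z i).im)
    ?_ ?_ ?_ ?_ (z := z) ?_ ?_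
  · intro i
    by_cases hi : (F i).Reg (w' i)
    · simp only [if_pos hi]
      exact continuous_sg h hi
    · simp only [if_neg hi]
      exact UpperHalfPlane.continuous_re.sub continuous_const
  · intro i
    by_cases hi : (F i).Reg (w' i)
    · simp only [if_pos hi]
      exact continuous_sg_rev h ((hw i).1 hi)
    · simp only [if_neg hi]
      exact UpperHalfPlane.continuous_im.sub continuous_const
  · intro x i
    by_cases hi : (F i).Reg (w' i)
    · simp only [mixU, if_pos hi, cl_zero, suI_zero F h]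
    · simp only [mixU, if_neg hi]
  · intro x i
    by_cases hi : (F i).Reg (w' i)
    · simp only [mixS, if_pos hi, if_pos ((hw i).1 hi), cl_zero, ssI_zero F h]
    · simp only [mixS, if_neg hi, if_neg fun h => hi ((hw i).2 h)]
  · intro i
    by_cases hi : (F i).Reg (w' i)
    · simp only [if_pos hi]
      exact locReg_sg hi ((hw i).1 hi) (hz i hi).1 (hz i hi).2
    · simp only [if_neg hi]
      exact locReg_id (z i)
  · intro i z' h1 h2
    by_cases hi : (F i).Reg (w' i)
    · simp only [if_pos hi] at h1 h2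
      rw [sg_eq_zero hi] at h1
      rw [sg_rev_eq_zero ((hw i).1 hi)] at h2
      have h3 := hi.leaf_u (hz i hi).1
      refine (F i).eq_of_zero h3 ?_ ?_
      · rw [← (F i).isTree_u.congr_left (hz i hi).1]
        exact h1
      · rw [← (F i).isTree_s.congr_left (hz i hi).2]
        exact h2
    · simp only [if_neg hi] at h1 h2
      exact UpperHalfPlane.ext (Complex.ext (sub_eq_zero.1 h1) (sub_eq_zero.1 h2))

theorem mixU_eq {w z : Fin r → ℍ} (hw : ∀ i, (F i).Reg (w i)) (x : X r 0) :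
    mixU F T₀ T w z 1 x = fun i => su F T i (w i) x := by
  funext i
  simp only [mixU, if_pos (hw i), cl_one, suI_one]

theorem mixS_eq {w z : Fin r → ℍ} (hw : ∀ i, (F i).Reg (w i)) (x : X r 0) :
    mixS F T₀ T w z 1 x = fun i => ss F T i (w i) x := by
  funext i
  simp only [mixS, if_pos (hw i), cl_one, ssI_one]

/-- The model leaves meet: the total degree is `±1`. -/
theorem total_pair_one (h : Setting S T₀ T) (C₀ : E r 0 ≃L[ℝ] E₁ × E₂)
    (Θ : (A r × A r) ≃L[ℝ] E₁ × E₂) {w' w'' : Fin r → ℍ} (hw' : ∀ i, (F i).Reg (w' i))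
    (hw'' : ∀ i, (F i).Reg (w'' i))
    (hz : ∀ i, ∃ z, (F i).du (w' i) z = 0 ∧ (F i).ds (w'' i) z = 0) :
    Total C₀ (fun x => Θ (fun i => su F T i (w' i) x, fun i => ss F T i (w'' i) x)) 1 := by
  choose z hz using hz
  have h1 := total_mix (T₀ := T₀) (T := T) h C₀ Θ (w' := w') (w'' := w'') (z := z)
    (fun i => ⟨fun _ => hw'' i, fun _ => hw' i⟩) fun i _ => hz i
  simpa only [mixU_eq hw', mixS_eq hw''] using h1

/-- The pair `(w, w)` has total degree `±1`. -/
theorem total_self (h : Setting S T₀ T) (C₀ : E r 0 ≃L[ℝ] E₁ × E₂)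
    (Θ : (A r × A r) ≃L[ℝ] E₁ × E₂) {w : Fin r → ℍ} (hw : ∀ i, (F i).Reg (w i)) :
    Total C₀ (fun x => Θ (fun i => su F T i (w i) x, fun i => ss F T i (w i) x)) 1 :=
  total_pair_one h C₀ Θ hw hw fun i => ⟨w i, (F i).isTree_u.self _, (F i).isTree_s.self _⟩

/-- Some of the model leaves do not meet: the total degree is `0`. -/
theorem total_pair_zero (h : Setting S T₀ T) (C₀ : E r 0 ≃L[ℝ] E₁ × E₂)
    (Θ : (A r × A r) ≃L[ℝ] E₁ × E₂) {w' w'' : Fin r → ℍ} (hw' : ∀ i, (F i).Reg (w' i))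
    (hw'' : ∀ i, (F i).Reg (w'' i)) {i : Fin r}
    (hz : ∀ z, ¬ ((F i).du (w' i) z = 0 ∧ (F i).ds (w'' i) z = 0)) :
    Total C₀ (fun x => Θ (fun i => su F T i (w' i) x, fun i => ss F T i (w'' i) x)) 0 := by
  have h1 := total_family_zero C₀ Θ (continuous_mixU h w' w') (continuous_mixS h w'' w')
    (compact_mix h fun i => ⟨fun _ => hw'' i, fun _ => hw' i⟩) ?_
  · simpa only [mixU_eq hw', mixS_eq hw''] using h1
  · rintro x ⟨h2, h3⟩
    have h4 := congrFun h2 i
    have h5 := congrFun h3 i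
    simp only [mixU, if_pos (hw' i), cl_zero, suI_zero F h, Pi.zero_apply] at h4
    simp only [mixS, if_pos (hw'' i), cl_zero, ssI_zero F h, Pi.zero_apply] at h5
    exact hz (x.1 i) ⟨(sg_eq_zero (hw' i) _).1 h4, (sg_rev_eq_zero (hw'' i) _).1 h5⟩

end Pool.Agent.ANO3.Tot
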